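import Pool.Agent.Lib.MP_a7848c_lc.Lower2

/-!
# Stabbing queries on R-trees cost `Ω((N/B)^(1-1/d))` in the worst case

For every dimension `d ≥ 2` and all constants `0 < α`, `0 < β` there are `c > 0` and `B₀` such that
for all `B ≥ B₀` and `N ≥ 1` some set `S` of `N` boxes in `ℝ^d` has the following property: on
every R-tree on `S` whose nodes have between `α B` and `β B` children (the root being exempt from
the lower bound), some stabbing query with a point that lies in no box of `S` visits at least
`c (N/B)^(1-1/d)` nodes. This matches the known upper bound of the priority R-tree.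
-/

namespace Pool.Agent.Results.MP_a7848c_lc.StabbingLowerBound

open Pool.Agent.Lib.MP_a7848c_lc

theorem result (d : ℕ) (hd : 2 ≤ d) (α β : ℝ) (hα : 0 < α) (hβ : 0 < β) :
    ∃ c : ℝ, 0 < c ∧ ∃ B₀ : ℕ, ∀ B : ℕ, B₀ ≤ B → ∀ N : ℕ, 1 ≤ N →
      ∃ S : Finset (Box d), S.card = N ∧
        ∀ (h : ℕ) (t : Tree d h), IsRTree (α * B) (β * B) S h t →
          ∃ q : Fin d → ℝ, stabbed S q = 0 ∧
            c * ((N : ℝ) / B) ^ (1 - 1 / (d : ℝ)) ≤ (Tree.visits q h t : ℝ) :=
  lower_bound d hd α β hα hβ

end Pool.Agent.Results.MP_a7848c_lc.StabbingLowerBound
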